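import Pool.Agent.Lib.MP_3240be_co.S36.Defs

set_option autoImplicit false

namespace MP3240S

namespace Weight

open Finset

variable {m : ℕ}

/-- `S` is a clique of colour `b`. -/
def Cl (η : Fin m → Fin m → Bool) (b : Bool) (S : Finset (Fin m)) : Prop :=
  ∀ i ∈ S, ∀ j ∈ S, i ≠ j → η i j = b

/-- The largest weight of a clique of colour `b` inside `S`. -/
noncomputable def mx (η : Fin m → Fin m → Bool) (ρ : Fin m → Bool → ℕ) (b : Bool)
    (S : Finset (Fin m)) : ℕ := by
  classical
  exact (S.powerset.filter (fun T => Cl η b T)).sup (fun T => ∑ i ∈ T, ρ i b)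

variable {η : Fin m → Fin m → Bool} {ρ : Fin m → Bool → ℕ}

theorem le_mx {b : Bool} {S T : Finset (Fin m)} (hT : T ⊆ S) (h : Cl η b T) :
    ∑ i ∈ T, ρ i b ≤ mx η ρ b S := by
  classical
  unfold mx
  exact Finset.le_sup (f := fun T : Finset (Fin m) => ∑ i ∈ T, ρ i b)
    (mem_filter.2 ⟨mem_powerset.2 hT, h⟩)

theorem exists_mx (b : Bool) (S : Finset (Fin m)) :
    ∃ T ⊆ S, Cl η b T ∧ ∑ i ∈ T, ρ i b = mx η ρ b S := by
  classical
  have hne : (S.powerset.filter (fun T => Cl η b T)).Nonempty :=
    ⟨∅, mem_filter.2 ⟨mem_powerset.2 (empty_subset _), fun i hi => absurd hi (notMem_empty i)⟩⟩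
  obtain ⟨T, hT, h⟩ := Finset.exists_mem_eq_sup _ hne (fun T : Finset (Fin m) => ∑ i ∈ T, ρ i b)
  obtain ⟨h1, h2⟩ := mem_filter.1 hT
  refine ⟨T, mem_powerset.1 h1, h2, ?_⟩
  unfold mx
  exact h.symm

theorem mx_mono {b : Bool} {S S' : Finset (Fin m)} (h : S ⊆ S') : mx η ρ b S ≤ mx η ρ b S' := by
  obtain ⟨T, hT, h1, h2⟩ := exists_mx (η := η) (ρ := ρ) b S
  rw [← h2]
  exact le_mx (hT.trans h) h1

theorem mx_insert {b : Bool} {S N : Finset (Fin m)} {v : Fin m} (hη : ∀ i j, η i j = η j i)
    (hv : v ∈ S) (hN : N ⊆ S) (hvN : v ∉ N) (hc : ∀ j ∈ N, η v j = b) :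
    ρ v b + mx η ρ b N ≤ mx η ρ b S := by
  classical
  obtain ⟨T, hT, h1, h2⟩ := exists_mx (η := η) (ρ := ρ) b N
  have hvT : v ∉ T := fun h => hvN (hT h)
  rw [← h2, ← sum_insert hvT (f := fun i => ρ i b)]
  refine le_mx (insert_subset hv (hT.trans hN)) ?_
  intro i hi j hj hij
  rcases mem_insert.1 hi with hiv | hi'
  · rcases mem_insert.1 hj with hjv | hj'
    · exact absurd (hiv.trans hjv.symm) hij
    · rw [hiv]
      exact hc j (hT hj')
  · rcases mem_insert.1 hj with hjv | hj'
    · rw [hη, hjv]
      exact hc i (hT hi')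
    · exact h1 i hi' j hj' hij

theorem mx_single {b : Bool} {S : Finset (Fin m)} {v : Fin m} (hv : v ∈ S) :
    ρ v b ≤ mx η ρ b S := by
  have h := le_mx (η := η) (ρ := ρ) (b := b) (S := S) (T := {v}) (singleton_subset_iff.2 hv) (by
    intro i hi j hj hij
    rw [mem_singleton] at hi hj
    exact absurd (hi.trans hj.symm) hij)
  rwa [sum_singleton] at h

theorem sum_ge {b : Bool} {S : Finset (Fin m)} {v : Fin m} (hρ : ∀ i b, 1 ≤ ρ i b)
    (hv : v ∈ S) : ρ v b + S.card ≤ (∑ i ∈ S, ρ i b) + 1 := by
  classical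
  rw [← add_sum_erase S (fun i => ρ i b) hv]
  have h1 : (S.erase v).card • 1 ≤ ∑ i ∈ S.erase v, ρ i b :=
    card_nsmul_le_sum _ _ _ fun i _ => hρ i b
  have h2 := card_erase_add_one hv
  rw [smul_eq_mul, mul_one] at h1
  omega

/-- The neighbours of `v` in colour `b`. -/
def Nb (η : Fin m → Fin m → Bool) (S : Finset (Fin m)) (v : Fin m) (b : Bool) :
    Finset (Fin m) := S.filter (fun j => j ≠ v ∧ η v j = b)

theorem mem_Nb {S : Finset (Fin m)} {v j : Fin m} {b : Bool} :
    j ∈ Nb η S v b ↔ j ∈ S ∧ j ≠ v ∧ η v j = b := mem_filter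

theorem card_Nb {S : Finset (Fin m)} {v : Fin m} (hv : v ∈ S) :
    (Nb η S v true).card + (Nb η S v false).card + 1 = S.card := by
  classical
  have h1 : Nb η S v true ∪ Nb η S v false = S.erase v := by
    ext j
    rw [mem_union, mem_Nb, mem_Nb, mem_erase]
    constructor
    · rintro (⟨h1, h2, -⟩ | ⟨h1, h2, -⟩) <;> exact ⟨h2, h1⟩
    · rintro ⟨h1, h2⟩
      cases h : η v j with
      | true => exact Or.inl ⟨h2, h1, rfl⟩
      | false => exact Or.inr ⟨h2, h1, rfl⟩
  have h2 : Disjoint (Nb η S v true) (Nb η S v false) := by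
    rw [disjoint_left]
    intro j h3 h4
    have h5 := (mem_Nb.1 h3).2.2
    rw [(mem_Nb.1 h4).2.2] at h5
    exact absurd h5 (by decide)
  rw [← card_union_of_disjoint h2, h1]
  exact card_erase_add_one hv

/-- A vertex which sees both colours. -/
theorem exists_both {S : Finset (Fin m)} (hη : ∀ i j, η i j = η j i) (hne : S.Nonempty)
    (h : ¬ ∃ b, Cl η b S) :
    ∃ v ∈ S, (Nb η S v true).Nonempty ∧ (Nb η S v false).Nonempty := by
  by_contra hcon
  push Not at hcon
  apply h
  -- every vertex sees only one colour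
  have h1 : ∀ v ∈ S, ∀ i ∈ S, ∀ j ∈ S, i ≠ v → j ≠ v → η v i = η v j := by
    intro v hv i hi j hj hiv hjv
    cases h2 : η v i with
    | true =>
      cases h3 : η v j with
      | true => rfl
      | false =>
        have h4 := hcon v hv ⟨i, mem_Nb.2 ⟨hi, hiv, h2⟩⟩
        exact absurd (mem_Nb.2 ⟨hj, hjv, h3⟩) (h4 ▸ notMem_empty j)
    | false =>
      cases h3 : η v j with
      | false => rfl
      | true =>
        have h4 := hcon v hv ⟨j, mem_Nb.2 ⟨hj, hjv, h3⟩⟩
        exact absurd (mem_Nb.2 ⟨hi, hiv, h2⟩) (h4 ▸ notMem_empty i)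
  obtain ⟨v, hv⟩ := hne
  by_cases hw : ∃ w ∈ S, w ≠ v
  · obtain ⟨w, hwS, hwv⟩ := hw
    refine ⟨η v w, fun i hi j hj hij => ?_⟩
    by_cases hiv : i = v
    · subst hiv
      exact h1 i hv j hj w hwS (Ne.symm hij) hwv
    · by_cases hjv : j = v
      · subst hjv
        rw [hη i j]
        exact h1 j hv i hi w hwS hiv hwv
      · rw [h1 i hi j hj v hv (Ne.symm hij) (Ne.symm hiv), hη i v]
        exact h1 v hv i hi w hwS hiv hwv
  · push Not at hw
    exact ⟨true, fun i hi j hj hij => absurd ((hw i hi).trans (hw j hj).symm) hij⟩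

theorem lower (hη : ∀ i j, η i j = η j i) (hρ : ∀ i b, 1 ≤ ρ i b)
    (hρ2 : ∀ i, m + 1 ≤ ρ i true + ρ i false) (n : ℕ) : ∀ S : Finset (Fin m), S.card = n →
    1 ≤ n → n ≤ m → m + n ≤ mx η ρ true S + mx η ρ false S ∧
      (n < m → mx η ρ true S + mx η ρ false S ≤ m + n → ∃ b, Cl η b S) := by
  induction n using Nat.strong_induction_on with
  | _ n ih =>
    intro S hS hn1 hnm
    have hne : S.Nonempty := card_pos.1 (by omega)
    by_cases hc : ∃ b, Cl η b S
    · refine ⟨?_, fun _ _ => hc⟩
      obtain ⟨b, hb⟩ := hc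
      obtain ⟨v, hv⟩ := hne
      have h1 := sum_ge (ρ := ρ) (b := b) hρ hv
      have h2 := le_mx (ρ := ρ) (Finset.Subset.refl S) hb
      have h3 := mx_single (η := η) (ρ := ρ) (b := !b) hv
      have h4 := hρ2 v
      cases b with
      | true =>
        simp only [Bool.not_true] at h3
        omega
      | false =>
        simp only [Bool.not_false] at h3
        omega
    · obtain ⟨v, hv, hN1, hN2⟩ := exists_both hη hne hc
      have hcard := card_Nb (η := η) hv
      have hp1 := card_pos.2 hN1
      have hp2 := card_pos.2 hN2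
      have i1 := (ih _ (by omega) (Nb η S v true) rfl hp1 (by omega)).1
      have i2 := (ih _ (by omega) (Nb η S v false) rfl hp2 (by omega)).1
      have hsub : ∀ b, Nb η S v b ⊆ S := fun b => filter_subset _ _
      have hnot : ∀ b, v ∉ Nb η S v b := fun b h => (mem_Nb.1 h).2.1 rfl
      have a1 := mx_insert (ρ := ρ) (b := true) hη hv (hsub true) (hnot true)
        fun j hj => (mem_Nb.1 hj).2.2
      have a2 := mx_mono (η := η) (ρ := ρ) (b := true) (hsub false)
      have a3 := mx_insert (ρ := ρ) (b := false) hη hv (hsub false) (hnot false)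
        fun j hj => (mem_Nb.1 hj).2.2
      have a4 := mx_mono (η := η) (ρ := ρ) (b := false) (hsub true)
      have a5 := hρ2 v
      constructor
      · omega
      · intro h1 h2
        exfalso
        omega

end Weight

open Weight Finset in
theorem weight_proof : WeightStatement := by
  intro m η ρ hm hη hρ hρ2 hw
  have hup : ∀ b S, mx η ρ b S ≤ m := by
    intro b S
    obtain ⟨T, -, h1, h2⟩ := exists_mx (η := η) (ρ := ρ) b S
    rw [← h2]
    exact hw b T h1
  have hcm : (univ : Finset (Fin m)).card = m := by rw [card_univ, Fintype.card_fin]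
  obtain ⟨hL, -⟩ := lower hη hρ hρ2 m univ hcm (by omega) le_rfl
  have u1 := hup true univ
  have u2 := hup false univ
  by_cases hc : ∃ b, Cl η b (univ : Finset (Fin m))
  · obtain ⟨b, hb⟩ := hc
    refine ⟨b, fun i j hij => hb i (mem_univ i) j (mem_univ j) hij, fun i => ?_⟩
    have h1 := sum_ge (ρ := ρ) (b := b) hρ (mem_univ i)
    have h2 := hw b univ hb
    have h3 := hρ i b
    omega
  · exfalso
    obtain ⟨v, hv, hN1, hN2⟩ := exists_both hη (card_pos.1 (by omega)) hc
    have hcard := card_Nb (η := η) hv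
    have hp1 := card_pos.2 hN1
    have hp2 := card_pos.2 hN2
    obtain ⟨i1, i1'⟩ := lower hη hρ hρ2 _ (Nb η univ v true) rfl hp1 (by omega)
    obtain ⟨i2, -⟩ := lower hη hρ hρ2 _ (Nb η univ v false) rfl hp2 (by omega)
    have hsub : ∀ b, Nb η univ v b ⊆ univ := fun b => filter_subset _ _
    have hnot : ∀ b, v ∉ Nb η univ v b := fun b h => (mem_Nb.1 h).2.1 rfl
    have a1 := mx_insert (ρ := ρ) (b := true) hη hv (hsub true) (hnot true)
      fun j hj => (mem_Nb.1 hj).2.2
    have a2 := mx_mono (η := η) (ρ := ρ) (b := true) (hsub false)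
    have a3 := mx_insert (ρ := ρ) (b := false) hη hv (hsub false) (hnot false)
      fun j hj => (mem_Nb.1 hj).2.2
    have a4 := mx_mono (η := η) (ρ := ρ) (b := false) (hsub true)
    have a5 := hρ2 v
    have e1 : mx η ρ true (Nb η univ v true) = (Nb η univ v true).card := by omega
    have e2 : mx η ρ true (Nb η univ v false) = m := by omega
    have e3 : mx η ρ false (Nb η univ v true) = m := by omega
    obtain ⟨b, hb⟩ := i1' (by omega) (by omega)
    -- the red case
    have red : Cl η true (Nb η univ v true) → False := by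
      intro hR
      obtain ⟨i, hi⟩ := hN1
      have h1 := sum_ge (ρ := ρ) (b := true) hρ hi
      have h2 := le_mx (ρ := ρ) (Finset.Subset.refl _) hR
      have h3 := hρ i true
      have h4 := hρ2 i
      have h5 : ∀ j, j ≠ i → η i j = true := by
        intro j hj
        by_contra h6
        rw [Bool.not_eq_true] at h6
        have h7 := hw false {i, j} (by
          intro x hx y hy hxy
          rw [mem_insert, mem_singleton] at hx hy
          rcases hx with rfl | rfl
          · rcases hy with rfl | rfl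
            · exact absurd rfl hxy
            · exact h6
          · rcases hy with rfl | rfl
            · rw [hη]
              exact h6
            · exact absurd rfl hxy)
        rw [sum_pair (Ne.symm hj)] at h7
        have h8 := hρ j false
        omega
      have h6 : i ∉ Nb η univ v false := by
        intro h
        have h7 := (mem_Nb.1 hi).2.2
        rw [(mem_Nb.1 h).2.2] at h7
        exact absurd h7 (by decide)
      have h7 := mx_insert (ρ := ρ) (b := true) hη (mem_univ i) (hsub false) h6
        fun j hj => h5 j fun e => h6 (e ▸ hj)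
      omega
    cases b with
    | true => exact red hb
    | false =>
      by_cases ht : (Nb η univ v true).card = 1
      · apply red
        obtain ⟨i, hi⟩ := card_eq_one.1 ht
        rw [hi]
        intro x hx y hy hxy
        rw [mem_singleton] at hx hy
        exact absurd (hx.trans hy.symm) hxy
      · have h1 : ∀ i ∈ Nb η univ v true, m + 1 - (Nb η univ v true).card ≤ ρ i false := by
          intro i hi
          have h2 := mx_single (η := η) (ρ := ρ) (b := true) hi
          have h3 := hρ2 i
          omega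
        have h2 := card_nsmul_le_sum _ (fun i => ρ i false) _ h1
        have h3 := hw false _ hb
        rw [smul_eq_mul] at h2
        obtain ⟨s, hs⟩ : ∃ s, m = (Nb η univ v true).card + s := ⟨m - (Nb η univ v true).card, by omega⟩
        have h4 : (Nb η univ v true).card * (s + 1) ≤ m := by
          have : m + 1 - (Nb η univ v true).card = s + 1 := by omega
          rw [this] at h2
          exact h2.trans h3
        have h5 : 1 ≤ s := by omega
        have h6 : 2 ≤ (Nb η univ v true).card := by omega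
        nlinarith

end MP3240S
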