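import Mathlib
import Pool.Agent.Lib.MP_3240be_co.H36.Host
import Pool.Agent.Lib.MP_3240be_co.H51.Defs

/-!
# MP_3240be_co, theorem SF: hosts with `m` groups of clusters

`m ≥ 2` groups, all joined to each other.  Group `i` consists of the vertices
`.inr (i, w, p)`, `w : ℕ` the cluster, `p : Fin q` the position; inside a cluster we have the graph
`D i`, clusters `w`, `w'` are completely joined if `(T i).Adj w w'`.  Beside group `0` there are
`M` copies `.inl (t, x)` of the graph `Q`, joined to the groups `i ≥ 1`.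
-/

set_option autoImplicit false

namespace MP3240S

open Pool.Agent.Lib.MP_3240be_co.H36 MP3240T

/-- The vertices of the host. -/
abbrev VS (M r q : ℕ) : Type := (Fin M × Fin r) ⊕ (ℕ × ℕ × Fin q)

/-- The edges of the host. -/
def relS {M r q : ℕ} (m : ℕ) (Q : SimpleGraph (Fin r)) (D : ℕ → SimpleGraph (Fin q))
    (T : ℕ → SimpleGraph ℕ) : VS M r q → VS M r q → Prop
  | .inl (t, x), .inl (t', y) => t = t' ∧ Q.Adj x y
  | .inl _, .inr (i, _, _) => 1 ≤ i ∧ i < m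
  | .inr (i, _, _), .inl _ => 1 ≤ i ∧ i < m
  | .inr (i, w, p), .inr (i', w', p') => i < m ∧ i' < m ∧
      (i ≠ i' ∨ (i = i' ∧ ((T i).Adj w w' ∨ (w = w' ∧ (D i).Adj p p'))))

/-- The host. -/
def host {M r q : ℕ} (m : ℕ) (Q : SimpleGraph (Fin r)) (D : ℕ → SimpleGraph (Fin q))
    (T : ℕ → SimpleGraph ℕ) : SimpleGraph (VS M r q) where
  Adj := relS m Q D T
  symm := ⟨by
    rintro (⟨t, x⟩ | ⟨i, w, p⟩) (⟨t', y⟩ | ⟨i', w', p'⟩) h
    · exact ⟨h.1.symm, h.2.symm⟩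
    · exact h
    · exact h
    · obtain ⟨h1, h2, h3⟩ := h
      refine ⟨h2, h1, ?_⟩
      rcases h3 with h3 | ⟨rfl, h3 | ⟨rfl, h3⟩⟩
      · exact Or.inl h3.symm
      · exact Or.inr ⟨rfl, Or.inl h3.symm⟩
      · exact Or.inr ⟨rfl, Or.inr ⟨rfl, h3.symm⟩⟩⟩
  loopless := ⟨by
    rintro (⟨t, x⟩ | ⟨i, w, p⟩) h
    · exact Q.loopless.irrefl x h.2
    · obtain ⟨_, _, h3⟩ := h
      rcases h3 with h3 | ⟨_, h3 | ⟨_, h3⟩⟩
      · exact h3 rfl
      · exact (T i).loopless.irrefl w h3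
      · exact (D i).loopless.irrefl p h3⟩

/-- `H` is a subgraph of the join of `m` graphs, the `i`-th one being a disjoint union of copies
(indexed by `C`) of the relation `P i`. -/
def Fits {n : ℕ} {X : Type} (C : Type) (H : SimpleGraph (Fin n)) (m : ℕ)
    (P : ℕ → X → X → Prop) : Prop :=
  ∃ φ : Fin n → ℕ × C × X, Function.Injective φ ∧ (∀ u, (φ u).1 < m) ∧
    ∀ u v, H.Adj u v → (φ u).1 = (φ v).1 →
      (φ u).2.1 = (φ v).2.1 ∧ P (φ u).1 (φ u).2.2 (φ v).2.2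

/-- The relation of group `i` in colour `b`: `Q` (with the colouring `χ`) and `D 0` in group `0`,
`D i` (with the colouring `γ i`) in group `i`. -/
def Pat {r q : ℕ} (Q : SimpleGraph (Fin r)) (D : ℕ → SimpleGraph (Fin q))
    (χ : Fin r → Fin r → Bool) (γ : ℕ → Fin q → Fin q → Bool) (b : Bool) (i : ℕ) :
    Fin r ⊕ Fin q → Fin r ⊕ Fin q → Prop
  | .inl x, .inl y => i = 0 ∧ Q.Adj x y ∧ χ x y = b
  | .inr p, .inr p' => (D i).Adj p p' ∧ γ i p p' = b
  | _, _ => False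

/-- A homogeneous part of a colouring of the host: between groups colour `b`, between different
classes `a`, `a'` of a group the other colour, at `Q` colour `b`; the colours inside the clusters
of group `i` are given by `γ i`, those inside the copies of `Q` by `χ`. -/
structure Forced {M r q : ℕ} (n m : ℕ) (Q : SimpleGraph (Fin r)) (D : ℕ → SimpleGraph (Fin q))
    (T : ℕ → SimpleGraph ℕ) (c : VS M r q → VS M r q → Bool) where
  b : Bool
  χ : Fin r → Fin r → Bool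
  γ : ℕ → Fin q → Fin q → Bool
  χs : ∀ x y, χ x y = χ y x
  γs : ∀ i p p', γ i p p' = γ i p' p
  τ : Fin n → Fin M
  τinj : Function.Injective τ
  V : ℕ → Fin m → Fin n → ℕ
  Vinj : ∀ i < m, ∀ a, Function.Injective (V i a)
  adj : ∀ i < m, ∀ a a', a ≠ a' → ∀ t t', (T i).Adj (V i a t) (V i a' t')
  hQ : ∀ t x y, c (.inl (τ t, x)) (.inl (τ t, y)) = χ x y
  hD : ∀ i < m, ∀ a t p p', c (.inr (i, V i a t, p)) (.inr (i, V i a t, p')) = γ i p p'
  hQV : ∀ i, 1 ≤ i → i < m → ∀ t x a t' p, c (.inl (τ t, x)) (.inr (i, V i a t', p)) = b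
  hVV : ∀ i < m, ∀ i' < m, i ≠ i' → ∀ a a' t t' p p',
    c (.inr (i, V i a t, p)) (.inr (i', V i' a' t', p')) = b
  hin : ∀ i < m, ∀ a a', a ≠ a' → ∀ t t' p p',
    c (.inr (i, V i a t, p)) (.inr (i, V i a' t', p')) = !b

/-- Row FORCE: for suitable locally `m`-colourable `T` every colouring of the host has a
monochromatic blow-up of `K_(m+1)` or a forced part. -/
def ForceStatement : Prop :=
  ∀ (n m g r q : ℕ) (Q : SimpleGraph (Fin r)) (D : ℕ → SimpleGraph (Fin q)), 2 ≤ m → 1 ≤ q →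
    ∃ (M : ℕ) (T : ℕ → SimpleGraph ℕ), (∀ i, LocCol (T i) g m) ∧
      ∀ c : VS M r q → VS M r q → Bool, (∀ x y, c x y = c y x) →
        (∃ b, Blow (host m Q D T) c n (m + 1) b) ∨ Nonempty (Forced n m Q D T c)

/-- Row GOOD: a colouring of the host without `H'`. -/
def GoodStatement : Prop :=
  ∀ (n' m g M r q : ℕ) (H' : SimpleGraph (Fin n')) (Q : SimpleGraph (Fin r))
    (D : ℕ → SimpleGraph (Fin q)) (T : ℕ → SimpleGraph ℕ) (χ : Fin r → Fin r → Bool),
    1 ≤ m → H'.Connected → ¬ H'.Colorable m → n' ≤ g → (∀ i, LocCol (T i) g m) →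
    (∀ x y, χ x y = χ y x) →
    (¬ ∃ f : Fin n' → Fin r, Function.Injective f ∧
      ∀ i j, H'.Adj i j → Q.Adj (f i) (f j) ∧ χ (f i) (f j) = true) →
    ¬ Fits ℕ H' m (Pat Q D χ (fun _ _ _ => false) false) →
    ¬ Arr (host (M := M) m Q D T) H'

/-- Row EMB: what a forced part contains. -/
def EmbStatement : Prop :=
  ∀ (n m M r q : ℕ) (H : SimpleGraph (Fin n)) (Q : SimpleGraph (Fin r))
    (D : ℕ → SimpleGraph (Fin q)) (T : ℕ → SimpleGraph ℕ)
    (c : VS M r q → VS M r q → Bool) (_ : ∀ x y, c x y = c y x) (S : Forced n m Q D T c),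
    1 ≤ m →
    ((∃ f : Fin n → Fin r, Function.Injective f ∧
        ∀ i j, H.Adj i j → Q.Adj (f i) (f j) ∧ S.χ (f i) (f j) = !S.b) ∨
      (∃ i < m, Fits (Fin n) H m (fun _ p p' => (D i).Adj p p' ∧ S.γ i p p' = !S.b)) ∨
      Fits (Fin n) H m (Pat Q D S.χ S.γ S.b)) →
    ∃ b, Emb H (cls (host m Q D T) c b)

/-- Row WEIGHT. -/
def WeightStatement : Prop :=
  ∀ (m : ℕ) (η : Fin m → Fin m → Bool) (ρ : Fin m → Bool → ℕ), 2 ≤ m →
    (∀ i j, η i j = η j i) → (∀ i b, 1 ≤ ρ i b) → (∀ i, m + 1 ≤ ρ i true + ρ i false) →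
    (∀ b (S : Finset (Fin m)), (∀ i ∈ S, ∀ j ∈ S, i ≠ j → η i j = b) → ∑ i ∈ S, ρ i b ≤ m) →
    ∃ b, (∀ i j, i ≠ j → η i j = b) ∧ ∀ i, ρ i b = 1

/-- **The reduction.**  Let `H` be `(m+1)`-colourable, `H'` connected and not `m`-colourable,
`m ≥ 2`.  Suppose that `Q`, `D` and a colouring `χ₀` of `Q` satisfy (G1), (G2) and (A). Then some
finite graph is Ramsey for `H` and not for `H'`. -/
def RedStatement : Prop :=
  ∀ (n n' m r q : ℕ) (H : SimpleGraph (Fin n)) (H' : SimpleGraph (Fin n'))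
    (Q : SimpleGraph (Fin r)) (D : ℕ → SimpleGraph (Fin q)) (χ₀ : Fin r → Fin r → Bool),
    2 ≤ m → 1 ≤ q → H.Colorable (m + 1) → H'.Connected → ¬ H'.Colorable m →
    (∀ x y, χ₀ x y = χ₀ y x) →
    (¬ ∃ f : Fin n' → Fin r, Function.Injective f ∧
      ∀ i j, H'.Adj i j → Q.Adj (f i) (f j) ∧ χ₀ (f i) (f j) = true) →
    ¬ Fits ℕ H' m (Pat Q D χ₀ (fun _ _ _ => false) false) →
    (∀ (χ : Fin r → Fin r → Bool) (γ : ℕ → Fin q → Fin q → Bool) (b : Bool),
      (∀ x y, χ x y = χ y x) → (∀ i p p', γ i p p' = γ i p' p) →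
      (∃ f : Fin n → Fin r, Function.Injective f ∧
        ∀ i j, H.Adj i j → Q.Adj (f i) (f j) ∧ χ (f i) (f j) = !b) ∨
      (∃ i < m, Fits (Fin n) H m (fun _ p p' => (D i).Adj p p' ∧ γ i p p' = !b)) ∨
      Fits (Fin n) H m (Pat Q D χ γ b)) →
    ∃ (N : ℕ) (F : SimpleGraph (Fin N)), Arr F H ∧ ¬ Arr F H'

/-- `V(H)` is a union of `j` sets inducing star forests with at most `e` leaves and `m - j`
independent sets. -/
def StarParts {n : ℕ} (H : SimpleGraph (Fin n)) (m j e : ℕ) : Prop :=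
  ∃ (part : Fin n → ℕ) (ctr : Fin n → Fin n), (∀ x, part x < m) ∧
    (∀ x, part (ctr x) = part x ∧ ctr (ctr x) = ctr x) ∧
    (∀ x, (Finset.univ.filter (fun y => ctr y = x ∧ y ≠ x)).card ≤ e) ∧
    ∀ x y, H.Adj x y → part x = part y → part x < j ∧ ctr x = ctr y ∧ (ctr x = x ∨ ctr y = y)

/-- `H` packs with every graph `C` on its vertex set whose degrees are all smaller than `e`. -/
def PacksS {n : ℕ} (H : SimpleGraph (Fin n)) (e : ℕ) : Prop :=
  ∀ C : SimpleGraph (Fin n), (∀ x, {y | C.Adj x y}.ncard < e) →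
    ∃ σ : Equiv.Perm (Fin n), ∀ x y, H.Adj x y → ¬ C.Adj (σ x) (σ y)

/-- The star with `2 e - 1` leaves (centre `0`) for `1 ≤ i < j`, no edges otherwise. -/
def DS (j e i : ℕ) : SimpleGraph (Fin (2 * e)) where
  Adj p p' := (1 ≤ i ∧ i < j) ∧ p ≠ p' ∧ (p.val = 0 ∨ p'.val = 0)
  symm := ⟨fun _ _ h => ⟨h.1, h.2.1.symm, h.2.2.symm⟩⟩
  loopless := ⟨fun _ h => h.2.1 rfl⟩

/-- Row PIN: (A) holds for `Q` complete and `D` given by stars. -/
def PinStatement : Prop :=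
  ∀ (n m j e : ℕ) (H : SimpleGraph (Fin n)), 1 ≤ j → j ≤ m → 1 ≤ e → StarParts H m j e →
    (e = 1 ∨ PacksS H e) →
    ∀ (χ : Fin n → Fin n → Bool) (γ : ℕ → Fin (2 * e) → Fin (2 * e) → Bool) (b : Bool),
      (∀ x y, χ x y = χ y x) → (∀ i p p', γ i p p' = γ i p' p) →
      (∃ f : Fin n → Fin n, Function.Injective f ∧
        ∀ i j, H.Adj i j → (⊤ : SimpleGraph (Fin n)).Adj (f i) (f j) ∧ χ (f i) (f j) = !b) ∨
      (∃ i < m, Fits (Fin n) H m (fun _ p p' => (DS j e i).Adj p p' ∧ γ i p p' = !b)) ∨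
      Fits (Fin n) H m (Pat (⊤ : SimpleGraph (Fin n)) (DS j e) χ γ b)

/-- Row POUT: (G2) means that `V(H')` is a union of `j - 1` star forests with at most `2 e - 1`
leaves and independent sets. -/
def PoutStatement : Prop :=
  ∀ (n' m j e r : ℕ) (H' : SimpleGraph (Fin n')), 1 ≤ j → j ≤ m → 1 ≤ e →
    Fits ℕ H' m (Pat (⊤ : SimpleGraph (Fin r)) (DS j e) (fun _ _ => true)
      (fun _ _ _ => false) false) →
    StarParts H' m (j - 1) (2 * e - 1)

/-- **Theorem SF.** -/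
def SFStatement : Prop :=
  ∀ (n n' m j e : ℕ) (H : SimpleGraph (Fin n)) (H' : SimpleGraph (Fin n')),
    2 ≤ m → 1 ≤ j → j ≤ m → 1 ≤ e → H.Colorable (m + 1) → StarParts H m j e →
    (e = 1 ∨ PacksS H e) → H'.Connected → n < n' → ¬ StarParts H' m (j - 1) (2 * e - 1) →
    ∃ (N : ℕ) (F : SimpleGraph (Fin N)), Arr F H ∧ ¬ Arr F H'

end MP3240S
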