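import Mathlib
import Pool.Agent.Lib.MP_3240be_co.S36.Defs

/-!
# MP_3240be_co, theorem SF: homogenisation
-/

set_option autoImplicit false

namespace MP3240S

open Pool.Agent.Lib.MP_3240be_co.H36 Filter

/-- A finite window graph on an initial segment of `ℕ`. -/
theorem robust_nat (n g : ℕ) (K : Type) [Finite K] [Nonempty K] :
    ∃ (L : ℕ) (T : SimpleGraph (Fin n) → SimpleGraph ℕ),
      (∀ R p, 0 < p → LocCol R (2 * g ^ 2) p → LocCol (T R) g p) ∧
      ∀ κ : ℕ → K, ∃ e : Fin n → ℕ, Function.Injective e ∧ (∀ x, e x < L) ∧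
        (∀ (R : SimpleGraph (Fin n)) x y, R.Adj x y → (T R).Adj (e x) (e y)) ∧
        ∀ x y, κ (e x) = κ (e y) := by
  classical
  obtain ⟨W, T, hT1, hT2⟩ := robust n g
  -- compactness
  have hS : ∃ S : Finset W, ∀ κ : W → K, ∃ e : Fin n → W, Function.Injective e ∧
      (∀ x, e x ∈ S) ∧ (∀ (R : SimpleGraph (Fin n)) x y, R.Adj x y → (T R).Adj (e x) (e y)) ∧
      ∀ x y, κ (e x) = κ (e y) := by
    by_contra hcon
    push Not at hcon
    choose κ hκ using hcon
    let U : Ultrafilter (Finset W) := Ultrafilter.of Filter.atTop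
    choose lim hlim using fun (w : W) => ulim U (fun S => κ S w)
    obtain ⟨e, he1, he2, he3⟩ := hT2 K lim
    have h1 : ∀ᶠ S in (U : Filter (Finset W)), Finset.univ.image e ⊆ S :=
      (Ultrafilter.of_le _) (Filter.eventually_ge_atTop _)
    have h2 : ∀ᶠ S in (U : Filter (Finset W)), ∀ x ∈ (Finset.univ : Finset (Fin n)),
        κ S (e x) = lim (e x) := by
      rw [Filter.eventually_all_finset]
      intro x _
      exact hlim (e x)
    obtain ⟨S, h3, h4⟩ := (h1.and h2).exists
    obtain ⟨x, y, hxy⟩ := hκ S e he1 (fun x => h3 (Finset.mem_image_of_mem _ (Finset.mem_univ x)))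
      he2
    apply hxy
    rw [h4 x (Finset.mem_univ x), h4 y (Finset.mem_univ y), he3 x y]
  obtain ⟨S, hS⟩ := hS
  let ε : Fin S.card → W := fun i => (S.equivFin.symm i).1
  refine ⟨S.card, fun R =>
    { Adj := fun a b => ∃ (ha : a < S.card) (hb : b < S.card), (T R).Adj (ε ⟨a, ha⟩) (ε ⟨b, hb⟩)
      symm := ⟨fun a b ⟨ha, hb, h⟩ => ⟨hb, ha, h.symm⟩⟩
      loopless := ⟨fun a ⟨ha, hb, h⟩ => (T R).loopless.irrefl _ h⟩ }, ?_, ?_⟩
  · intro R p hp hR X hX
    let X' : Finset (Fin S.card) := Finset.univ.filter (fun i => (i : ℕ) ∈ X)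
    have hX' : X'.card ≤ g := by
      refine le_trans ?_ hX
      refine Finset.card_le_card_of_injOn (fun i => (i : ℕ)) ?_ ?_
      · intro i hi
        exact (Finset.mem_filter.1 hi).2
      · intro i _ j _ hij
        exact Fin.ext hij
    obtain ⟨f, hf1, hf2⟩ := (hT1 R p hp hR).comap ε X' hX'
    refine ⟨fun a => if h : a < S.card then f ⟨a, h⟩ else 0, ?_, ?_⟩
    · intro x
      by_cases h : x < S.card
      · simp only [h, dif_pos]
        exact hf1 _
      · simp only [h, dif_neg, not_false_eq_true]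
        exact hp
    · rintro x hx y hy ⟨ha, hb, h⟩
      simp only [ha, hb, dif_pos]
      exact hf2 ⟨x, ha⟩ (by simp [X', hx]) ⟨y, hb⟩ (by simp [X', hy]) h
  · intro κ
    obtain ⟨e, he1, he2, he3, he4⟩ := hS (fun w => if h : w ∈ S then κ (S.equivFin ⟨w, h⟩) else
      Classical.arbitrary K)
    refine ⟨fun x => (S.equivFin ⟨e x, he2 x⟩ : Fin S.card).val, ?_, fun x => Fin.is_lt _, ?_, ?_⟩
    · intro x y hxy
      have h1 := S.equivFin.injective (Fin.ext hxy)
      exact he1 (congrArg Subtype.val h1)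
    · intro R x y hxy
      refine ⟨Fin.is_lt _, Fin.is_lt _, ?_⟩
      simp only [Fin.eta, ε, Equiv.symm_apply_apply]
      exact he3 R x y hxy
    · intro x y
      have h1 := he4 x y
      simp only [he2 x, he2 y, dif_pos] at h1
      exact h1

/-- Homogenisation of `k` groups: vertex colours `ψ`, colours `χ` of pairs of vertices of
different groups. -/
theorem groups {n g p : ℕ} (hp : 0 < p) (R : SimpleGraph (Fin n)) (hR : LocCol R (2 * g ^ 2) p)
    (Col : Type) [Finite Col] [Nonempty Col] :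
    ∀ (k : ℕ) (K : Type) [Finite K] [Nonempty K], ∃ (T : ℕ → SimpleGraph ℕ) (L : ℕ),
      (∀ i, LocCol (T i) g p) ∧
      ∀ (ψ : ℕ → ℕ → K) (χ : ℕ → ℕ → ℕ → ℕ → Col), ∃ e : ℕ → Fin n → ℕ, ∀ i < k,
        Function.Injective (e i) ∧ (∀ x, e i x < L) ∧
        (∀ x y, R.Adj x y → (T i).Adj (e i x) (e i y)) ∧
        (∀ x y, ψ i (e i x) = ψ i (e i y)) ∧
        ∀ i' < k, i ≠ i' → ∀ x y x' y',
          χ i (e i x) i' (e i' x') = χ i (e i y) i' (e i' y') := by
  classical
  intro k
  induction k with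
  | zero =>
    intro K _ _
    refine ⟨fun _ => ⊥, 0, ?_, ?_⟩
    · intro i X _
      exact ⟨fun _ => 0, fun _ => hp, fun x _ y _ h => absurd h id⟩
    · intro ψ χ
      exact ⟨fun _ _ => 0, fun i hi => absurd hi (Nat.not_lt_zero i)⟩
  | succ k ih =>
    intro K _ _
    obtain ⟨T, L, hT, hL⟩ := ih (K × (Col × Col))
    obtain ⟨L', T', hT', hL'⟩ := robust_nat n g (K × (Fin k → Fin L → Col × Col))
    refine ⟨fun i => if i = k then T' R else T i, max L L', ?_, ?_⟩
    · intro i
      by_cases h : i = k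
      · simp only [h, if_true]
        exact hT' R p hp hR
      · simp only [h, if_false]
        exact hT i
    · intro ψ χ
      obtain ⟨e', h1, h2, h3, h4⟩ := hL' (fun w => (ψ k w, fun i y => (χ k w i y, χ i y k w)))
      rcases isEmpty_or_nonempty (Fin n) with hn | ⟨⟨x0⟩⟩
      · refine ⟨fun _ x => hn.elim x, fun i _ => ⟨fun x => hn.elim x, fun x => hn.elim x,
          fun x => hn.elim x, fun x => hn.elim x, fun i' _ _ x => hn.elim x⟩⟩
      obtain ⟨e, he⟩ := hL (fun i y => (ψ i y, (χ k (e' x0) i y, χ i y k (e' x0)))) χ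
      refine ⟨fun i => if i = k then e' else e i, ?_⟩
      have key : ∀ i, i < k → ∀ x y x', χ k (e' x) i (e i x') = χ k (e' y) i (e i x') ∧
          χ i (e i x') k (e' x) = χ i (e i x') k (e' y) := by
        intro i hi x y x'
        have h5 := congrArg Prod.snd (h4 x y)
        have h6 := congrFun (congrFun h5 ⟨i, hi⟩) ⟨e i x', (he i hi).2.1 x'⟩
        exact ⟨congrArg Prod.fst h6, congrArg Prod.snd h6⟩
      have key2 : ∀ i, i < k → ∀ x' y', χ k (e' x0) i (e i x') = χ k (e' x0) i (e i y') ∧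
          χ i (e i x') k (e' x0) = χ i (e i y') k (e' x0) := by
        intro i hi x' y'
        have h5 := congrArg Prod.snd ((he i hi).2.2.2.1 x' y')
        exact ⟨congrArg Prod.fst h5, congrArg Prod.snd h5⟩
      intro i hi
      by_cases hik : i = k
      · subst hik
        simp only [if_true]
        refine ⟨h1, fun x => lt_of_lt_of_le (h2 x) (le_max_right _ _), h3 R,
          fun x y => congrArg Prod.fst (h4 x y), ?_⟩
        intro i' hi' hne x y x' y'
        have hi'' : i' < i := lt_of_le_of_ne (Nat.lt_succ_iff.1 hi') (Ne.symm hne)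
        simp only [hi''.ne, if_false]
        rw [(key i' hi'' x x0 x').1, (key i' hi'' y x0 y').1]
        exact (key2 i' hi'' x' y').1
      · have hi2 : i < k := lt_of_le_of_ne (Nat.lt_succ_iff.1 hi) hik
        obtain ⟨g1, g2, g3, g4, g5⟩ := he i hi2
        simp only [hik, if_false]
        refine ⟨g1, fun x => lt_of_lt_of_le (g2 x) (le_max_left _ _), g3,
          fun x y => congrArg Prod.fst (g4 x y), ?_⟩
        intro i' hi' hne x y x' y'
        by_cases hik' : i' = k
        · subst hik'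
          simp only [if_true]
          rw [(key i hi2 x' x0 x).2, (key i hi2 y' x0 y).2]
          exact (key2 i hi2 x y).2
        · simp only [hik', if_false]
          exact g5 i' (lt_of_le_of_ne (Nat.lt_succ_iff.1 hi') hik') hne x y x' y'

end MP3240S
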